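import Mathlib
import Pool.Agent.R821.FourWords
import Pool.Agent.R821.Aff
import Pool.Agent.R821.FreeT2

/-!
# Tools for the Fréchet–Urysohn property of `F_4(X)`
-/

set_option autoImplicit false

open Filter Topology Pool.Agent.R821.FG

namespace Pool.Agent.Run7.h538.FU

attribute [local instance] topF

section general

variable {X : Type} [TopologicalSpace X]

/-- a map which agrees with a continuous map near the non-isolated points is continuous -/
theorem continuous_of_near {Y : Type*} [TopologicalSpace Y] {V : Set X} (hV : IsOpen V)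
    (hK : ∀ x, ¬ IsOpen ({x} : Set X) → x ∈ V) {h h0 : X → Y} (hh0 : Continuous h0)
    (hh : ∀ x ∈ V, h x = h0 x) : Continuous h := by
  rw [continuous_iff_continuousAt]
  intro x
  by_cases hx : x ∈ V
  · refine hh0.continuousAt.congr ?_
    filter_upwards [hV.mem_nhds hx] with y hy
    exact (hh y hy).symm
  · have h1 : IsOpen ({x} : Set X) := by
      by_contra h2
      exact hx (hK x h2)
    have h2 : 𝓝 x = pure x := (isOpen_singleton_iff_nhds_eq_pure x).1 h1
    rw [ContinuousAt, h2]
    exact tendsto_pure_nhds h x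

/-- an ultrafilter containing all neighbourhoods of a compact set converges to a point of it -/
theorem exists_limit {K : Set X} (hK : IsCompact K) (v : Ultrafilter X)
    (h : ∀ V, IsOpen V → K ⊆ V → V ∈ v) : ∃ x ∈ K, (v : Filter X) ≤ 𝓝 x := by
  by_contra hcon
  push Not at hcon
  have h1 : ∃ V, IsOpen V ∧ K ⊆ V ∧ V ∉ v := by
    refine hK.induction_on (p := fun S => ∃ V, IsOpen V ∧ S ⊆ V ∧ V ∉ v) ?_ ?_ ?_ ?_
    · exact ⟨∅, isOpen_empty, subset_rfl, v.empty_notMem⟩
    · rintro s t hst ⟨V, h1, h2, h3⟩
      exact ⟨V, h1, hst.trans h2, h3⟩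
    · rintro s t ⟨V, h1, h2, h3⟩ ⟨W, g1, g2, g3⟩
      refine ⟨V ∪ W, h1.union g1, Set.union_subset_union h2 g2, ?_⟩
      rw [Ultrafilter.union_mem_iff]
      exact not_or.2 ⟨h3, g3⟩
    · intro x hx
      obtain ⟨O, hO, hO2⟩ := Filter.not_le.1 (hcon x hx)
      obtain ⟨O', hO1, hO2', hO3⟩ := mem_nhds_iff.1 hO
      exact ⟨O', mem_nhdsWithin_of_mem_nhds (hO2'.mem_nhds hO3), O', hO2', subset_rfl,
        fun h => hO2 (mem_of_superset h hO1)⟩
  obtain ⟨V, h1, h2, h3⟩ := h1
  exact h3 (h V h1 h2)

/-- the letters as elements of the free group -/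
def lt (z : X × Bool) : FreeGroup X := FreeGroup.mk [z]

theorem lt_continuous (b : Bool) : Continuous fun x : X => (lt (x, b) : FreeGroup X) := by
  cases b
  · have : (fun x : X => (lt (x, false) : FreeGroup X)) = fun x => (FreeGroup.of x)⁻¹ := by
      funext x
      rfl
    rw [this]
    exact (continuous_of X).inv
  · exact continuous_of X

omit [TopologicalSpace X] in
theorem mk_eq_prod (L : List (X × Bool)) : FreeGroup.mk L = (L.map lt).prod := by
  induction L with
  | nil => rfl
  | cons a L ih =>
    rw [List.map_cons, List.prod_cons, ← ih, lt, FreeGroup.mul_mk]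
    rfl

/-- the word with the signs `l` and the letters `z` -/
def wd (l : List Bool) (z : Fin l.length → X) : FreeGroup X :=
  FreeGroup.mk (List.ofFn fun i => (z i, l.get i))

theorem continuous_prod_ofFn {Y G : Type*} [TopologicalSpace Y] [Group G] [TopologicalSpace G]
    [IsTopologicalGroup G] : ∀ (n : ℕ) (f : Fin n → Y → G), (∀ i, Continuous (f i)) →
      Continuous fun y => (List.ofFn fun i => f i y).prod := by
  intro n
  induction n with
  | zero =>
    intro f _
    simp only [List.ofFn_zero, List.prod_nil]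
    exact continuous_const
  | succ n ih =>
    intro f hf
    simp only [List.ofFn_succ, List.prod_cons]
    exact (hf 0).mul (ih (fun i => f i.succ) fun i => hf i.succ)

theorem wd_continuous (l : List Bool) : Continuous (wd (X := X) l) := by
  have h : (wd (X := X) l) = fun z => (List.ofFn fun i => lt (z i, l.get i)).prod := by
    funext z
    rw [wd, mk_eq_prod, List.map_ofFn]
    rfl
  rw [h]
  exact continuous_prod_ofFn l.length (fun i (z : Fin l.length → X) => lt (z i, l.get i))
    fun i => (lt_continuous (l.get i)).comp (continuous_apply i)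

end general

section metric

variable {X : Type} [MetricSpace X]

/-- if no letter escapes then there is a sequence -/
theorem seq_of_limit {A : Set (FreeGroup X)} {g : FreeGroup X}
    {u : Ultrafilter (FreeGroup X)} (hu : (u : Filter (FreeGroup X)) ≤ 𝓝 g) (hA : A ∈ u)
    (l : List Bool) (ζ : FreeGroup X → (Fin l.length → X))
    (hζ : ∀ᶠ w in (u : Filter (FreeGroup X)), wd l (ζ w) = w) (x : Fin l.length → X)
    (hx : ∀ i, Tendsto (fun w => ζ w i) (u : Filter (FreeGroup X)) (𝓝 (x i))) :
    ∃ s : ℕ → FreeGroup X, (∀ n, s n ∈ A) ∧ Tendsto s atTop (𝓝 g) := by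
  have ht : Tendsto ζ (u : Filter (FreeGroup X)) (𝓝 x) := tendsto_pi_nhds.2 hx
  have h1 : Tendsto (fun w => wd l (ζ w)) (u : Filter (FreeGroup X)) (𝓝 (wd l x)) :=
    ((wd_continuous l).tendsto x).comp ht
  have h2 : Tendsto (fun w => wd l (ζ w)) (u : Filter (FreeGroup X)) (𝓝 g) := by
    refine Tendsto.congr' (f₁ := id) ?_ hu
    filter_upwards [hζ] with w hw
    exact hw.symm
  have h3 : wd l x = g := tendsto_nhds_unique h1 h2
  have h4 : x ∈ closure (wd l ⁻¹' A) := by
    refine mem_closure_of_tendsto ht ?_
    filter_upwards [hζ, hA] with w hw hwA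
    change wd l (ζ w) ∈ A
    rw [hw]
    exact hwA
  obtain ⟨s, hs, hs2⟩ := mem_closure_iff_seq_limit.1 h4
  refine ⟨fun n => wd l (s n), hs, ?_⟩
  rw [← h3]
  exact ((wd_continuous l).tendsto x).comp hs2

/-- a Kuratowski type embedding, which separates isolated points well -/
noncomputable def ff (K : Set X) (x : X) : lp (fun _ : X => ℝ) ⊤ :=
  open Classical in
  ⟨fun y => if x = y then 0 else min 1 (dist x y + Metric.infDist x K + Metric.infDist y K), by
    refine memℓp_infty ⟨1, ?_⟩
    rintro _ ⟨y, rfl⟩
    simp only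
    split_ifs
    · simp
    · rw [Real.norm_eq_abs, abs_of_nonneg]
      · exact min_le_left _ _
      · refine le_min zero_le_one ?_
        have := Metric.infDist_nonneg (x := x) (s := K)
        have := Metric.infDist_nonneg (x := y) (s := K)
        have := dist_nonneg (x := x) (y := y)
        linarith⟩

theorem ff_self (K : Set X) (x : X) : ff K x x = 0 := by
  classical
  change (if x = x then (0 : ℝ) else _) = 0
  rw [if_pos rfl]

theorem ff_ne (K : Set X) {x y : X} (h : x ≠ y) :
    ff K x y = min 1 (dist x y + Metric.infDist x K + Metric.infDist y K) := by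
  classical
  change (if x = y then (0 : ℝ) else _) = _
  rw [if_neg h]

theorem ff_lower (K : Set X) {b c : X} (h : b ≠ c) :
    min 1 (dist b c + Metric.infDist b K + Metric.infDist c K) ≤ ‖ff K b - ff K c‖ := by
  have h1 := lp.norm_apply_le_norm (p := ⊤) (by simp) (ff K b - ff K c) c
  have h2 : (ff K b - ff K c) c = ff K b c - ff K c c := rfl
  rw [h2, ff_self, ff_ne K h, sub_zero] at h1
  exact (le_abs_self _).trans h1

theorem abs_min_sub (a b : ℝ) : |min 1 a - min 1 b| ≤ |a - b| := by
  rcases le_total 1 a with h1 | h1 <;> rcases le_total 1 b with h2 | h2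
  · rw [min_eq_left h1, min_eq_left h2, sub_self, abs_zero]
    exact abs_nonneg _
  · rw [min_eq_left h1, min_eq_right h2, abs_of_nonneg (by linarith), abs_of_nonneg (by linarith)]
    linarith
  · rw [min_eq_right h1, min_eq_left h2, abs_of_nonpos (by linarith), abs_of_nonpos (by linarith)]
    linarith
  · rw [min_eq_right h1, min_eq_right h2]

theorem ff_upper {K : Set X} {x : X} (hx : Metric.infDist x K = 0) (x' : X) :
    ‖ff K x' - ff K x‖ ≤ dist x' x + Metric.infDist x' K := by
  have n1 := Metric.infDist_nonneg (x := x') (s := K)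
  have n2 := dist_nonneg (x := x') (y := x)
  refine lp.norm_le_of_forall_le (by linarith) fun y => ?_
  change |ff K x' y - ff K x y| ≤ _
  by_cases h1 : x' = y
  · by_cases h2 : x = y
    · rw [h1, h2, ff_self, sub_self, abs_zero]
      have := Metric.infDist_nonneg (x := y) (s := K)
      rw [dist_self]
      linarith
    · subst h1
      rw [ff_self, ff_ne K h2, hx, zero_sub, abs_neg, dist_comm x x']
      rw [abs_of_nonneg (le_min zero_le_one (by linarith))]
      exact (min_le_right _ _).trans (by linarith)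
  · by_cases h2 : x = y
    · subst h2
      rw [ff_self, ff_ne K h1, hx, sub_zero]
      rw [abs_of_nonneg (le_min zero_le_one (by linarith))]
      exact (min_le_right _ _).trans (by linarith)
    · rw [ff_ne K h1, ff_ne K h2, hx]
      refine (abs_min_sub _ _).trans ?_
      have h3 := abs_dist_sub_le x' x y
      rw [abs_le] at h3 ⊢
      constructor <;> linarith [h3.1, h3.2]

theorem ff_continuous {K : Set X} (hK : ∀ x, ¬ IsOpen ({x} : Set X) → x ∈ K) :
    Continuous (ff K) := by
  rw [continuous_iff_continuousAt]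
  intro x
  by_cases h1 : IsOpen ({x} : Set X)
  · have h2 : 𝓝 x = pure x := (isOpen_singleton_iff_nhds_eq_pure x).1 h1
    rw [ContinuousAt, h2]
    exact tendsto_pure_nhds _ x
  · have hx : Metric.infDist x K = 0 := Metric.infDist_zero_of_mem (hK x h1)
    rw [ContinuousAt, tendsto_iff_norm_sub_tendsto_zero]
    have h2 : Tendsto (fun x' => dist x' x + Metric.infDist x' K) (𝓝 x) (𝓝 0) := by
      have h3 : Continuous fun x' => dist x' x + Metric.infDist x' K :=
        (continuous_id.dist continuous_const).add (Metric.continuous_infDist_pt K)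
      have h4 := h3.tendsto x
      simp only [dist_self, hx, add_zero] at h4
      exact h4
    exact squeeze_zero (fun _ => norm_nonneg _) (ff_upper hx) h2

/-- the first alternative: bad pairs converging to the diagonal -/
theorem alt_seq {K : Set X} (hK : IsCompact K) (hKne : K.Nonempty) {A : Set (FreeGroup X)}
    (p : X) (ε : Bool)
    (h : ∀ δ : ℝ, 0 < δ → ∃ b c β, b ≠ c ∧ FreeGroup.mk [(p, ε), (b, β), (c, !β), (p, !ε)] ∈ A ∧
      ‖ff K b - ff K c‖ < δ) :
    ∃ s : ℕ → FreeGroup X, (∀ n, s n ∈ A) ∧ Tendsto s atTop (𝓝 1) := by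
  have h' : ∀ n : ℕ, ∃ b c β, b ≠ c ∧ FreeGroup.mk [(p, ε), (b, β), (c, !β), (p, !ε)] ∈ A ∧
      ‖ff K b - ff K c‖ < 1 / ((n : ℝ) + 1) := fun n => h _ (by positivity)
  choose b c β hbc hA hn using h'
  have h1 : ∀ n, dist (b n) (c n) + Metric.infDist (b n) K + Metric.infDist (c n) K
      < 1 / ((n : ℝ) + 1) := by
    intro n
    have h2 := (ff_lower K (hbc n)).trans_lt (hn n)
    rcases min_lt_iff.1 h2 with h3 | h3
    · exfalso
      rw [lt_div_iff₀ (by positivity)] at h3
      have : (0 : ℝ) ≤ n := Nat.cast_nonneg n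
      linarith
    · exact h3
  have hlim : Tendsto (fun n : ℕ => 1 / ((n : ℝ) + 1)) atTop (𝓝 0) :=
    tendsto_one_div_add_atTop_nhds_zero_nat
  have hd : Tendsto (fun n => dist (b n) (c n)) atTop (𝓝 0) := by
    refine squeeze_zero (fun _ => dist_nonneg) (fun n => ?_) hlim
    have := h1 n
    have := Metric.infDist_nonneg (x := b n) (s := K)
    have := Metric.infDist_nonneg (x := c n) (s := K)
    linarith
  have hi : Tendsto (fun n => Metric.infDist (b n) K) atTop (𝓝 0) := by
    refine squeeze_zero (fun _ => Metric.infDist_nonneg) (fun n => ?_) hlim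
    have := h1 n
    have := Metric.infDist_nonneg (x := c n) (s := K)
    have := dist_nonneg (x := b n) (y := c n)
    linarith
  choose y hyK hy using fun n => hK.exists_infDist_eq_dist hKne (b n)
  obtain ⟨x, hx, φ, hφ, hφx⟩ := hK.tendsto_subseq hyK
  have hb : Tendsto (b ∘ φ) atTop (𝓝 x) := by
    refine hφx.congr_dist ?_
    have h2 := hi.comp hφ.tendsto_atTop
    refine h2.congr fun n => ?_
    simp only [Function.comp_apply]
    rw [hy, dist_comm]
  have hc : Tendsto (c ∘ φ) atTop (𝓝 x) := hb.congr_dist (hd.comp hφ.tendsto_atTop)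
  refine ⟨fun n => FreeGroup.mk [(p, ε), (b (φ n), β (φ n)), (c (φ n), !(β (φ n))), (p, !ε)],
    fun n => hA (φ n), ?_⟩
  have key : ∀ β' : Bool, Tendsto (fun n => (FreeGroup.mk [(p, ε), (b (φ n), β'), (c (φ n), !β'),
      (p, !ε)] : FreeGroup X)) atTop (𝓝 1) := by
    intro β'
    have h2 : ∀ s t : X, (FreeGroup.mk [(p, ε), (s, β'), (t, !β'), (p, !ε)] : FreeGroup X) =
        lt (p, ε) * (lt (s, β') * lt (t, !β')) * lt (p, !ε) := fun s t => by
      simp [lt, FreeGroup.mul_mk]
    have h3 : (1 : FreeGroup X) = lt (p, ε) * (lt (x, β') * lt (x, !β')) * lt (p, !ε) := by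
      have h4 : ∀ (z : X) (e : Bool), (lt (z, e) * lt (z, !e) : FreeGroup X) = 1 := by
        intro z e
        have : (lt (z, !e) : FreeGroup X) = (lt (z, e))⁻¹ := by
          simp [lt, FreeGroup.inv_mk, FreeGroup.invRev]
        rw [this, mul_inv_cancel]
      rw [h4, mul_one, h4]
    simp only [h2]
    rw [h3]
    refine Tendsto.mul (Tendsto.mul tendsto_const_nhds (Tendsto.mul ?_ ?_)) tendsto_const_nhds
    · exact ((lt_continuous β').tendsto x).comp hb
    · exact ((lt_continuous (!β')).tendsto x).comp hc
  intro N hN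
  have k1 := (key true) hN
  have k2 := (key false) hN
  rw [mem_map] at k1 k2 ⊢
  filter_upwards [k1, k2] with n h1 h2
  simp only [Set.mem_preimage] at h1 h2 ⊢
  rcases hb : β (φ n) with _ | _
  · exact h2
  · exact h1

end metric

end Pool.Agent.Run7.h538.FU
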