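import Pool.Agent.Run7.h538.FU.Basic

/-!
# `F_4(X)` is Fréchet–Urysohn for a metrizable space with compact set of non-isolated points
-/

set_option autoImplicit false

open Filter Topology Pool.Agent.R821.FG

namespace Pool.Agent.Run7.h538.FU

attribute [local instance] topF

theorem exists_letters {X : Type} (L : List (X × Bool)) (l : List Bool) (h : L.map Prod.snd = l) :
    ∃ z : Fin l.length → X, L = List.ofFn fun i => (z i, l.get i) := by
  subst h
  refine ⟨fun i => (L.get (i.cast (by simp))).1, ?_⟩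
  apply List.ext_get
  · simp
  · intro n h1 h2
    simp

theorem lift_congr {X : Type} {G : Type*} [Group G] {f f' : X → G} (L : List (X × Bool))
    (h : ∀ l ∈ L, f l.1 = f' l.1) :
    FreeGroup.lift f (FreeGroup.mk L) = FreeGroup.lift f' (FreeGroup.mk L) := by
  rw [FreeGroup.lift_mk, FreeGroup.lift_mk]
  congr 1
  refine List.map_congr_left fun l hl => ?_
  rw [h l hl]

variable {X : Type} [MetricSpace X]

theorem main [DecidableEq X] {K : Set X} (hKd : ∀ x, ¬ IsOpen ({x} : Set X) → x ∈ K)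
    (hK : IsCompact K) {A : Set (FreeGroup X)} (hA4 : ∀ w ∈ A, w.toWord.length ≤ 4)
    {g : FreeGroup X} (hg : g ∈ closure A) :
    ∃ s : ℕ → FreeGroup X, (∀ n, s n ∈ A) ∧ Tendsto s atTop (𝓝 g) := by
  obtain ⟨u, huA, hu⟩ := mem_closure_iff_ultrafilter.1 hg
  -- the signs
  obtain ⟨l, hl⟩ : ∃ l : List Bool, ∀ᶠ w in (u : Filter (FreeGroup X)),
      w.toWord.map Prod.snd = l := by
    have h1 : {l : List Bool | l.length ≤ 4} ∈ u.map (fun w => w.toWord.map Prod.snd) := by
      rw [Ultrafilter.mem_map]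
      refine mem_of_superset huA fun w hw => ?_
      change (w.toWord.map Prod.snd).length ≤ 4
      rw [List.length_map]
      exact hA4 w hw
    obtain ⟨l, _, hl⟩ := Ultrafilter.eq_pure_of_finite_mem (List.finite_length_le Bool 4) h1
    refine ⟨l, ?_⟩
    have h2 : ({l} : Set (List Bool)) ∈ u.map (fun w => w.toWord.map Prod.snd) := by
      rw [hl]
      exact Set.mem_singleton l
    exact h2
  -- the letters
  obtain ⟨ζ, hζ⟩ : ∃ ζ : FreeGroup X → (Fin l.length → X), ∀ᶠ w in (u : Filter (FreeGroup X)),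
      w.toWord = List.ofFn fun i => (ζ w i, l.get i) := by
    have h1 : ∀ᶠ w in (u : Filter (FreeGroup X)), ∃ z : Fin l.length → X,
        w.toWord = List.ofFn fun i => (z i, l.get i) := by
      filter_upwards [hl] with w hw
      exact exists_letters _ _ hw
    obtain ⟨w0, z0, _⟩ := h1.exists
    have h2 : ∀ w : FreeGroup X, ∃ z' : Fin l.length → X,
        (∃ z : Fin l.length → X, w.toWord = List.ofFn fun i => (z i, l.get i)) →
          w.toWord = List.ofFn fun i => (z' i, l.get i) := by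
      intro w
      by_cases h : ∃ z : Fin l.length → X, w.toWord = List.ofFn fun i => (z i, l.get i)
      · obtain ⟨z, hz⟩ := h
        exact ⟨z, fun _ => hz⟩
      · exact ⟨z0, fun h' => absurd h' h⟩
    choose ζ hζ using h2
    exact ⟨ζ, h1.mono fun w hw => hζ w hw⟩
  have hζ' : ∀ᶠ w in (u : Filter (FreeGroup X)), wd l (ζ w) = w := by
    filter_upwards [hζ] with w hw
    rw [wd, ← hw, FreeGroup.mk_toWord]
  by_cases hconv : ∀ i, ∃ x, Tendsto (fun w => ζ w i) (u : Filter (FreeGroup X)) (𝓝 x)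
  · choose x hx using hconv
    exact seq_of_limit hu huA l ζ hζ' x hx
  -- a letter escapes
  push Not at hconv
  obtain ⟨i, hi⟩ := hconv
  set p : FreeGroup X → X := fun w => ζ w i with hp
  have hfin : ∀ T : Set X, T.Finite → ∀ᶠ w in (u : Filter (FreeGroup X)), p w ∉ T := by
    intro T hT
    by_contra hcon
    have h1 : T ∈ u.map p := by
      rw [Ultrafilter.mem_map]
      by_contra h2
      exact hcon (Ultrafilter.compl_mem_iff_notMem.2 h2)
    obtain ⟨x, _, hx⟩ := Ultrafilter.eq_pure_of_finite_mem hT h1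
    refine hi x ?_
    have h3 : ((u.map p : Ultrafilter X) : Filter X) ≤ 𝓝 x := by
      rw [hx]
      exact pure_le_nhds x
    exact h3
  obtain ⟨V, hVo, hKV, hVp⟩ : ∃ V : Set X, IsOpen V ∧ K ⊆ V ∧
      ∀ᶠ w in (u : Filter (FreeGroup X)), p w ∉ V := by
    by_contra hcon
    push Not at hcon
    obtain ⟨x, _, hx⟩ := exists_limit hK (u.map p) (by
      intro V hV hKV
      rw [Ultrafilter.mem_map]
      exact hcon V hV hKV)
    exact hi x hx
  have hS0 : {x : X | ∃ b, (x, b) ∈ g.toWord}.Finite := by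
    refine (List.finite_toSet (g.toWord.map Prod.fst)).subset ?_
    rintro x ⟨b, hb⟩
    exact List.mem_map.2 ⟨_, hb, rfl⟩
  -- the structure of the words
  have esc : ∀ V : Set X, IsOpen V → K ⊆ V → (∀ᶠ w in (u : Filter (FreeGroup X)), p w ∉ V) →
      ∀ᶠ w in (u : Filter (FreeGroup X)), ∃ ε b β c,
        w.toWord = [(p w, ε), (b, β), (c, !β), (p w, !ε)] ∧ b ∈ V ∧ c ∈ V ∧ b ≠ c := by
    classical
    intro V hVo hKV hVp
    let κ : X → Option X := fun x => if x ∈ V then none else some x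
    have hS : ∀ᶠ w in 𝓝 g, FreeGroup.map κ w = FreeGroup.map κ g := by
      let G := FreeGroup (Option X)
      let _ : TopologicalSpace G := ⊥
      have _ : DiscreteTopology G := ⟨rfl⟩
      have h1 : Continuous (fun x : X => (FreeGroup.of (κ x) : G)) := by
        refine continuous_of_near hVo (fun x hx => hKV (hKd x hx))
          (h0 := fun _ => (FreeGroup.of none : G)) continuous_const ?_
        intro x hx
        simp only [κ, if_pos hx]
      have h2 : Continuous (FreeGroup.lift fun x : X => (FreeGroup.of (κ x) : G)) :=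
        lift_continuous h1
      have h3 : IsOpen ({FreeGroup.lift (fun x : X => (FreeGroup.of (κ x) : G)) g} : Set G) :=
        isOpen_discrete _
      have h4 := h2.continuousAt.preimage_mem_nhds (h3.mem_nhds (Set.mem_singleton _))
      filter_upwards [h4] with w hw
      have h5 : ∀ w : FreeGroup X, FreeGroup.map κ w =
          FreeGroup.lift (fun x : X => (FreeGroup.of (κ x) : G)) w := by
        intro w
        rw [FreeGroup.map_eq_lift]
        rfl
      rw [h5, h5]
      exact hw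
    filter_upwards [hu hS, hζ, hVp, hfin _ hS0, huA] with w h1 h2 h3 h4 h5
    have h6 : FreeGroup.mk (w.toWord.map fun l => (κ l.1, l.2)) =
        FreeGroup.mk (g.toWord.map fun l => (κ l.1, l.2)) := by
      rw [← FreeGroup.map.mk, ← FreeGroup.map.mk, FreeGroup.mk_toWord, FreeGroup.mk_toWord]
      exact h1
    obtain ⟨ε, b, β, c, h7, h8, h9, h10⟩ := structure_lemma (D := Vᶜ)
      (FreeGroup.isReduced_toWord (x := w)) (hA4 w h5) κ (fun x hx => if_neg hx)
      (fun x hx => if_pos (not_not.1 hx)) h6 (z := p w) h3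
      ⟨l.get i, by rw [h2]; exact List.mem_ofFn.2 ⟨i, rfl⟩⟩ (fun b hb => h4 ⟨b, hb⟩)
    exact ⟨ε, b, β, c, h7, not_not.1 h8, not_not.1 h9, h10⟩
  have hVesc := esc V hVo hKV hVp
  obtain ⟨ε, β, hεβ⟩ : ∃ ε β, l = [ε, β, !β, !ε] := by
    obtain ⟨w, ⟨ε, b, β, c, h1, _⟩, h2⟩ := (hVesc.and hl).exists
    refine ⟨ε, β, ?_⟩
    rw [← h2, h1]
    rfl
  have hVesc' : ∀ᶠ w in (u : Filter (FreeGroup X)), ∃ bc : X × X,
      w.toWord = [(p w, ε), (bc.1, β), (bc.2, !β), (p w, !ε)] ∧ bc.1 ∈ V ∧ bc.2 ∈ V ∧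
        bc.1 ≠ bc.2 := by
    filter_upwards [hVesc, hl] with w hw h2
    obtain ⟨ε', b, β', c, h1, h3⟩ := hw
    have h4 : [ε', β', !β', !ε'] = [ε, β, !β, !ε] := by
      rw [← hεβ, ← h2, h1]
      rfl
    simp only [List.cons.injEq, and_true] at h4
    obtain ⟨h5, h6, _⟩ := h4
    subst h5 h6
    exact ⟨(b, c), h1, h3⟩
  have h2 : ∀ w : FreeGroup X, ∃ bc : X × X, (∃ bc : X × X,
      w.toWord = [(p w, ε), (bc.1, β), (bc.2, !β), (p w, !ε)] ∧ bc.1 ∈ V ∧ bc.2 ∈ V ∧
        bc.1 ≠ bc.2) →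
      (w.toWord = [(p w, ε), (bc.1, β), (bc.2, !β), (p w, !ε)] ∧ bc.1 ∈ V ∧ bc.2 ∈ V ∧
        bc.1 ≠ bc.2) := by
    intro w
    by_cases h : ∃ bc : X × X,
      w.toWord = [(p w, ε), (bc.1, β), (bc.2, !β), (p w, !ε)] ∧ bc.1 ∈ V ∧ bc.2 ∈ V ∧
        bc.1 ≠ bc.2
    · obtain ⟨bc, hbc⟩ := h
      exact ⟨bc, fun _ => hbc⟩
    · exact ⟨(p w, p w), fun h' => absurd h' h⟩
  choose q hq using h2
  have hw4 : ∀ᶠ w in (u : Filter (FreeGroup X)),
      w.toWord = [(p w, ε), ((q w).1, β), ((q w).2, !β), (p w, !ε)] ∧ (q w).1 ∈ V ∧ (q w).2 ∈ V ∧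
        (q w).1 ≠ (q w).2 := hVesc'.mono fun w hw => hq w hw
  have hw5 : ∀ᶠ w in (u : Filter (FreeGroup X)),
      w = lt (p w, ε) * (lt ((q w).1, β) * lt ((q w).2, !β)) * lt (p w, !ε) := by
    filter_upwards [hw4] with w hw
    conv_lhs => rw [← FreeGroup.mk_toWord (x := w), hw.1]
    simp [lt, FreeGroup.mul_mk]
  have hlift : ∀ {G : Type} [Group G] (f : X → G) (z : X × Bool),
      FreeGroup.lift f (lt z) = cond z.2 (f z.1) (f z.1)⁻¹ := by
    intro G _ f z
    rw [lt, FreeGroup.lift_mk, List.map_cons, List.map_nil, List.prod_cons, List.prod_nil, mul_one]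
  have hof : ∀ w : FreeGroup X, FreeGroup.lift FreeGroup.of w = w :=
    fun w => FreeGroup.lift_of_apply w
  -- the element `g` is trivial
  have hg1 : g = 1 := by
    classical
    obtain ⟨S1, hS1V, hS1g, hS1⟩ : ∃ S1 : Set X, V ⊆ S1 ∧ (∀ z ∈ g.toWord, z.1 ∈ S1) ∧
        ∀ x, x ∉ V → x ∉ {x : X | ∃ b, (x, b) ∈ g.toWord} → x ∉ S1 :=
      ⟨V ∪ {x : X | ∃ b, (x, b) ∈ g.toWord}, Set.subset_union_left,
        fun z hz => Or.inr ⟨z.2, hz⟩, fun x h1 h2 h => h.elim h1 h2⟩
    have hcontf : ∀ a : FreeGroup X, Continuous fun x : X =>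
        if x ∈ S1 then (FreeGroup.of x : FreeGroup X) else a := by
      intro a
      refine continuous_of_near hVo (fun x hx => hKV (hKd x hx)) (continuous_of X) ?_
      intro x hx
      rw [if_pos (hS1V hx)]
    have hgf : ∀ a : FreeGroup X, FreeGroup.lift (fun x : X =>
        if x ∈ S1 then (FreeGroup.of x : FreeGroup X) else a) g = g := by
      intro a
      have h1 := lift_congr (f := fun x : X =>
        if x ∈ S1 then (FreeGroup.of x : FreeGroup X) else a) (f' := FreeGroup.of) g.toWord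
        (fun z hz => if_pos (hS1g z hz))
      rw [FreeGroup.mk_toWord, hof] at h1
      exact h1
    have hwf : ∀ a : FreeGroup X, ∀ᶠ w in (u : Filter (FreeGroup X)), FreeGroup.lift (fun x : X =>
        if x ∈ S1 then (FreeGroup.of x : FreeGroup X) else a) w =
          cond ε a a⁻¹ * (lt ((q w).1, β) * lt ((q w).2, !β)) * cond (!ε) a a⁻¹ := by
      intro a
      filter_upwards [hw4, hw5, hVp, hfin _ hS0] with w h1 h2 h3 h4
      conv_lhs => rw [h2]
      rw [map_mul, map_mul, map_mul, hlift, hlift, hlift, hlift]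
      simp only
      have e1 : p w ∉ S1 := hS1 _ h3 h4
      rw [if_neg e1, if_pos (hS1V h1.2.1), if_pos (hS1V h1.2.2.1)]
      congr 3
      · cases β <;> rfl
      · cases β <;> rfl
    have hT : ∀ a : FreeGroup X, Tendsto (fun w => cond ε a a⁻¹ *
        (lt ((q w).1, β) * lt ((q w).2, !β)) * cond (!ε) a a⁻¹)
        (u : Filter (FreeGroup X)) (𝓝 g) := by
      intro a
      have h1 := ((lift_continuous (hcontf a)).tendsto g).mono_left hu
      rw [hgf a] at h1
      exact h1.congr' (hwf a)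
    have hT1 : Tendsto (fun w => lt ((q w).1, β) * lt ((q w).2, !β))
        (u : Filter (FreeGroup X)) (𝓝 g) := by
      have h1 := hT 1
      refine h1.congr fun w => ?_
      cases ε <;> simp
    obtain ⟨w0, hw0V, hw0S⟩ := (hVp.and (hfin _ hS0)).exists
    have hT2 := hT (FreeGroup.of (p w0))
    have hT3 := (hT1.const_mul (cond ε (FreeGroup.of (p w0)) (FreeGroup.of (p w0))⁻¹)).mul_const
      (cond (!ε) (FreeGroup.of (p w0)) (FreeGroup.of (p w0))⁻¹)
    have h5 := tendsto_nhds_unique hT2 hT3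
    refine eq_one_of_commute (z := p w0) (fun b hb => hw0S ⟨b, hb⟩) ?_
    cases ε
    · simp only [cond_false, Bool.not_false, cond_true] at h5
      have h6 : FreeGroup.of (p w0) * g = g * FreeGroup.of (p w0) := by
        conv_lhs => rw [h5]
        group
      exact h6.symm
    · simp only [cond_true, Bool.not_true, cond_false] at h5
      conv_lhs => rw [h5]
      group
  subst hg1
  -- `K` is not empty
  have hKne : K.Nonempty := by
    by_contra hcon
    rw [Set.not_nonempty_iff_eq_empty] at hcon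
    obtain ⟨w, ε, b, β, c, _, hb, _⟩ := (esc ∅ isOpen_empty (by rw [hcon])
      (Eventually.of_forall fun w => Set.notMem_empty _)).exists
    exact hb
  by_cases halt : ∃ (z : X) (ε : Bool), ∀ δ : ℝ, 0 < δ → ∃ b c β, b ≠ c ∧
      FreeGroup.mk [(z, ε), (b, β), (c, !β), (z, !ε)] ∈ A ∧ ‖ff K b - ff K c‖ < δ
  · obtain ⟨z, ε, h⟩ := halt
    exact alt_seq hK hKne z ε h
  exfalso
  push Not at halt
  choose δ hδ hδ2 using halt
  classical
  let φ : X → Aff (lp (fun _ : X => ℝ) ⊤) := fun x =>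
    if x ∈ V then ⟨ff K x, 0⟩ else ⟨0, cond ε (-Real.log (δ x ε)) (Real.log (δ x ε))⟩
  have hφ : Continuous φ := by
    refine continuous_of_near hVo (fun x hx => hKV (hKd x hx))
      (h0 := fun x => (⟨ff K x, 0⟩ : Aff (lp (fun _ : X => ℝ) ⊤)))
      (Aff.continuous_mk (ff_continuous hKd) continuous_const) ?_
    intro x hx
    simp only [φ, if_pos hx]
  have hN : ∀ᶠ w in 𝓝 (1 : FreeGroup X), ‖(FreeGroup.lift φ w).v‖ < 1 := by
    have h1 : Continuous fun w : FreeGroup X => ‖(FreeGroup.lift φ w).v‖ :=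
      (Aff.continuous_v.comp (lift_continuous hφ)).norm
    refine h1.continuousAt.eventually_lt continuousAt_const ?_
    simp only [map_one, Aff.one_v, norm_zero]
    exact zero_lt_one
  have hN' : ∀ᶠ w in (u : Filter (FreeGroup X)), ‖(FreeGroup.lift φ w).v‖ < 1 := hu hN
  obtain ⟨w, hw1, hw2, hw3, hw6⟩ := (hN'.and (hw4.and (hVp.and
    (show ∀ᶠ w in (u : Filter (FreeGroup X)), w ∈ A from huA)))).exists
  have e1 : FreeGroup.mk [(p w, ε), ((q w).1, β), ((q w).2, !β), (p w, !ε)] = w := by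
    rw [← hw2.1, FreeGroup.mk_toWord]
  have e2 := hδ2 (p w) ε (q w).1 (q w).2 β hw2.2.2.2 (by rw [e1]; exact hw6)
  have e3 : φ (p w) = ⟨0, cond ε (-Real.log (δ (p w) ε)) (Real.log (δ (p w) ε))⟩ := if_neg hw3
  have e4 : φ (q w).1 = ⟨ff K (q w).1, 0⟩ := if_pos hw2.2.1
  have e5 : φ (q w).2 = ⟨ff K (q w).2, 0⟩ := if_pos hw2.2.2.1
  have e6 := Aff.word_norm φ (z := p w) (b := (q w).1) (c := (q w).2) (by rw [e3])
    (by rw [e4]) (by rw [e5]) ε β
  have hpos := hδ (p w) ε
  have e7 : Real.exp (cond ε (φ (p w)).t (-(φ (p w)).t)) = (δ (p w) ε)⁻¹ := by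
    rw [e3]
    cases ε
    · simp only [cond_false]
      rw [Real.exp_neg, Real.exp_log (hδ (p w) false)]
    · simp only [cond_true]
      rw [Real.exp_neg, Real.exp_log (hδ (p w) true)]
  rw [e1, e7, e4, e5] at e6
  simp only at e6
  have e8 : ‖(FreeGroup.lift φ w).v‖ < 1 := hw1
  rw [e6] at e8
  have e9 : 1 ≤ (δ (p w) ε)⁻¹ * ‖ff K (q w).1 - ff K (q w).2‖ := by
    rw [← div_eq_inv_mul, le_div_iff₀ hpos, one_mul]
    exact e2
  linarith

end Pool.Agent.Run7.h538.FU
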